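import Pool.Agent.QUD.StmtsY

/-!
# Squad QUD, row CRD: closed chains of three and four sides
-/

set_option autoImplicit false

namespace Pool.Agent.QUD.H49Y

open Complex Filter Topology Pool.Agent.H62T
open Pool.Agent.AEU Pool.Agent.XQ Pool.Agent.QUD

theorem ip_add' (a z w : ℂ) : ip a (z + w) = ip a z + ip a w := by
  simp only [ip, Complex.add_re, Complex.add_im]; ring

theorem ip_sub' (a z w : ℂ) : ip a (z - w) = ip a z - ip a w := by
  simp only [ip, Complex.sub_re, Complex.sub_im]; ring

theorem ip_rm (a z : ℂ) (r : ℝ) : ip a ((r : ℂ) * z) = r * ip a z := by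
  simp only [ip, Complex.mul_re, Complex.mul_im, Complex.ofReal_re, Complex.ofReal_im]; ring

theorem ip_nl (a z : ℂ) : ip (-a) z = -ip a z := by
  simp only [ip, Complex.neg_re, Complex.neg_im]; ring

theorem ip_Idt (a b : ℂ) : ip b (I * a) = dt a b := by
  simp only [ip, dt, Complex.mul_re, Complex.mul_im, Complex.I_re, Complex.I_im]; ring

/-- two independent functionals determine a point -/
theorem eq_of_two {a b z w : ℂ} (h : dt a b ≠ 0) (h1 : ip a z = ip a w) (h2 : ip b z = ip b w) :
    z = w := by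
  have e1 : dt a b * (z.re - w.re) = 0 := by
    simp only [ip, dt] at *
    linear_combination b.im * h1 - a.im * h2
  have e2 : dt a b * (z.im - w.im) = 0 := by
    simp only [ip, dt] at *
    linear_combination a.re * h2 - b.re * h1
  have e3 := (mul_eq_zero.1 e1).resolve_left h
  have e4 := (mul_eq_zero.1 e2).resolve_left h
  exact Complex.ext (by linarith) (by linarith)

theorem ip_comb (s u v w : ℂ) (σ τ : ℝ) :
    ip s (u + (σ : ℂ) * (v - u) + (τ : ℂ) * (w - u)) =
      (1 - σ - τ) * ip s u + σ * ip s v + τ * ip s w := by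
  rw [ip_add', ip_add', ip_rm, ip_rm, ip_sub', ip_sub']; ring

/-- the horizontal and the vertical component -/
theorem ip_frame {ν : ℂ} (hν : ip ν ν = 1) (s z : ℂ) (h : ip ν z = 0) :
    ip s z = ip (I * ν) z * ip s (I * ν) := by
  simp only [ip, Complex.mul_re, Complex.mul_im, Complex.I_re, Complex.I_im] at *
  linear_combination (-(s.re * z.re + s.im * z.im)) * hν + (s.re * ν.re + s.im * ν.im) * h

theorem crd (vxx : VxxStatement) : CrdStmt := by
  classical
  intro X hX
  obtain ⟨V1, V2, V3, V4, V5, V6, -, -, V9, V10, -⟩ := vxx X hX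
  have hunit : ∀ s ∈ X, ip s.1 s.1 = 1 := fun s hs => by
    have h1 := hX.unit s hs
    have h2 : ip s.1 s.1 = ‖s.1‖ ^ 2 := by
      rw [Complex.sq_norm, Complex.normSq_apply]; rfl
    rw [h2, h1]; norm_num
  refine ⟨?_, ?_⟩
  · intro i j q v w w' hv hw hw'
    have hij : i ≠ j := hv.ne
    have hjq : j ≠ q := hw.ne
    have hiq : i ≠ q := hw'.ne
    have key : ∀ s ∈ X, s = i ∨ s = j ∨ s = q := by
      intro s hs
      by_contra hcon
      push Not at hcon
      obtain ⟨hsi, hsj, hsq⟩ := hcon
      obtain ⟨x0, hx0, hx1⟩ := hX.side s hs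
      have ha := hx1 i hv.mem₁ hsi.symm
      have hb := hx1 j hv.mem₂ hsj.symm
      have hc := hx1 q hw.mem₂ hsq.symm
      have hA : ip i.1 w < i.2 := V2 j q w hw i hv.mem₁ hij hiq
      have hB : ip j.1 w' < j.2 := V2 i q w' hw' j hv.mem₂ hij.symm hjq
      have hC : ip q.1 v < q.2 := V2 i j v hv q hw.mem₂ hiq.symm hjq.symm
      have hA' : 0 < i.2 - ip i.1 w := by linarith
      have hB' : 0 < j.2 - ip j.1 w' := by linarith
      have hC' : 0 < q.2 - ip q.1 v := by linarith
      obtain ⟨σ, hσ⟩ : ∃ σ : ℝ, σ = (i.2 - ip i.1 x0) / (i.2 - ip i.1 w) := ⟨_, rfl⟩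
      obtain ⟨τ, hτ⟩ : ∃ τ : ℝ, τ = (j.2 - ip j.1 x0) / (j.2 - ip j.1 w') := ⟨_, rfl⟩
      have hσ0 : 0 < σ := by rw [hσ]; exact div_pos (by linarith) hA'
      have hτ0 : 0 < τ := by rw [hτ]; exact div_pos (by linarith) hB'
      have hσm : σ * (i.2 - ip i.1 w) = i.2 - ip i.1 x0 := by
        rw [hσ, div_mul_cancel₀ _ hA'.ne']
      have hτm : τ * (j.2 - ip j.1 w') = j.2 - ip j.1 x0 := by
        rw [hτ, div_mul_cancel₀ _ hB'.ne']
      have hdt : dt i.1 j.1 ≠ 0 := (V5 i j v hv).2.2
      have hy : x0 = v + (σ : ℂ) * (w - v) + (τ : ℂ) * (w' - v) := by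
        refine eq_of_two hdt ?_ ?_
        · rw [ip_comb, hv.on₁, hw'.on₁]
          linear_combination hσm
        · rw [ip_comb, hv.on₂, hw.on₁]
          linear_combination hτm
      have h1 : 0 < 1 - σ - τ := by
        have h2 : ip q.1 x0 = (1 - σ - τ) * ip q.1 v + σ * ip q.1 w + τ * ip q.1 w' := by
          conv_lhs => rw [hy]
          rw [ip_comb]
        rw [hw.on₂, hw'.on₂] at h2
        have h3 : q.2 - ip q.1 x0 = (1 - σ - τ) * (q.2 - ip q.1 v) := by rw [h2]; ring
        by_contra h4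
        push Not at h4
        have h5 : (1 - σ - τ) * (q.2 - ip q.1 v) ≤ 0 := mul_nonpos_of_nonpos_of_nonneg h4 hC'.le
        linarith
      have h2 : ip s.1 x0 = (1 - σ - τ) * ip s.1 v + σ * ip s.1 w + τ * ip s.1 w' := by
        conv_lhs => rw [hy]
        rw [ip_comb]
      have h3 : ip s.1 v < s.2 := V2 i j v hv s hs hsi hsj
      have h4 : ip s.1 w < s.2 := V2 j q w hw s hs hsj hsq
      have h5 : ip s.1 w' < s.2 := V2 i q w' hw' s hs hsi hsq
      have h6 := mul_lt_mul_of_pos_left h3 h1
      have h7 := mul_lt_mul_of_pos_left h4 hσ0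
      have h8 := mul_lt_mul_of_pos_left h5 hτ0
      rw [hx0] at h2
      linarith
    have hXe : X = {i, j, q} := by
      ext s
      simp only [Finset.mem_insert, Finset.mem_singleton]
      refine ⟨key s, ?_⟩
      rintro (h | h | h)
      · rw [h]; exact hv.mem₁
      · rw [h]; exact hv.mem₂
      · rw [h]; exact hw.mem₂
    rw [hXe]
    exact Finset.card_eq_three.mpr ⟨i, j, q, hij, hiq, hjq, rfl⟩
  · intro a e a' e' v1 v2 v3 v4 haa h1 h2 h3 h4 hpos hneg
    have ha1 := hunit a h1.mem₁
    have hae : a ≠ e := h1.ne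
    have hea' : e ≠ a' := h2.ne
    have ha'e' : a' ≠ e' := h3.ne
    have he'a : e' ≠ a := h4.ne
    have haa' : a ≠ a' := by
      intro h
      rw [← h] at haa
      have h5 : ip (-a.1) a.1 = -1 := by rw [ip_nl, ha1]
      rw [← haa, ha1] at h5
      norm_num at h5
    have hee' : e ≠ e' := by
      intro h
      rw [← h] at hneg
      exact absurd hpos (not_lt.mpr hneg.le)
    have key : ∀ s ∈ X, s = a ∨ s = e ∨ s = a' ∨ s = e' := by
      intro s hs
      by_contra hcon
      push Not at hcon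
      obtain ⟨hsa, hse, hsa', hse'⟩ := hcon
      obtain ⟨x0, hx0, hx1⟩ := hX.side s hs
      have k1 := hx1 a h1.mem₁ hsa.symm
      have k2 := hx1 e h1.mem₂ hse.symm
      have k3 := hx1 a' h2.mem₂ hsa'.symm
      have k4 := hx1 e' h3.mem₂ hse'.symm
      rw [haa, ip_nl] at k3
      have m2 : -ip a.1 v2 = a'.2 := by
        have := h2.on₂
        rwa [haa, ip_nl] at this
      have m3 : -ip a.1 v3 = a'.2 := by
        have := h3.on₁
        rwa [haa, ip_nl] at this
      have hd : 0 < a.2 + a'.2 := by linarith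
      obtain ⟨θ, hθ⟩ : ∃ θ : ℝ, θ = (a.2 - ip a.1 x0) / (a.2 + a'.2) := ⟨_, rfl⟩
      have hθm : θ * (a.2 + a'.2) = a.2 - ip a.1 x0 := by
        rw [hθ, div_mul_cancel₀ _ hd.ne']
      have hθ0 : 0 < θ := by rw [hθ]; exact div_pos (by linarith) hd
      have hθ1 : θ < 1 := by
        rw [hθ, div_lt_one hd]; linarith
      -- the points p, p'
      have hline : ∀ (s z z' : ℂ), ip s (z + (θ : ℂ) * (z' - z) - x0) =
          (1 - θ) * ip s z + θ * ip s z' - ip s x0 := by
        intro s z z'
        rw [ip_sub', ip_add', ip_rm, ip_sub']; ring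
      have hp0 : ip a.1 (v1 + (θ : ℂ) * (v2 - v1) - x0) = 0 := by
        rw [hline, h1.on₁]
        have : ip a.1 v2 = -a'.2 := by linarith
        rw [this]
        linear_combination -hθm
      have hp0' : ip a.1 (v4 + (θ : ℂ) * (v3 - v4) - x0) = 0 := by
        rw [hline, h4.on₂]
        have : ip a.1 v3 = -a'.2 := by linarith
        rw [this]
        linear_combination -hθm
      have hpe : 0 < ip e.1 (v1 + (θ : ℂ) * (v2 - v1) - x0) := by
        rw [hline, h1.on₂, h2.on₁]
        linarith
      have hpe' : 0 < ip e'.1 (v4 + (θ : ℂ) * (v3 - v4) - x0) := by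
        rw [hline, h4.on₁, h3.on₂]
        linarith
      rw [ip_frame ha1 _ _ hp0] at hpe
      rw [ip_frame ha1 _ _ hp0'] at hpe'
      have hσ : 0 < ip (I * a.1) (v1 + (θ : ℂ) * (v2 - v1) - x0) := by
        by_contra hcon
        push Not at hcon
        have := mul_nonpos_of_nonpos_of_nonneg hcon hpos.le
        linarith
      have hσ' : ip (I * a.1) (v4 + (θ : ℂ) * (v3 - v4) - x0) < 0 := by
        by_contra hcon
        push Not at hcon
        have := mul_nonpos_of_nonneg_of_nonpos hcon hneg.le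
        linarith
      have n1 : ip s.1 v1 ≤ s.2 := h1.cl s hs
      have n2 : ip s.1 v2 ≤ s.2 := h2.cl s hs
      have n3 : ip s.1 v3 ≤ s.2 := h3.cl s hs
      have n4 : ip s.1 v4 ≤ s.2 := h4.cl s hs
      have hsp : ip s.1 (v1 + (θ : ℂ) * (v2 - v1) - x0) ≤ 0 := by
        rw [hline, hx0]
        have q1 := mul_le_mul_of_nonneg_left n1 (by linarith : (0 : ℝ) ≤ 1 - θ)
        have q2 := mul_le_mul_of_nonneg_left n2 hθ0.le
        linarith
      have hsp' : ip s.1 (v4 + (θ : ℂ) * (v3 - v4) - x0) ≤ 0 := by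
        rw [hline, hx0]
        have q1 := mul_le_mul_of_nonneg_left n4 (by linarith : (0 : ℝ) ≤ 1 - θ)
        have q2 := mul_le_mul_of_nonneg_left n3 hθ0.le
        linarith
      rw [ip_frame ha1 _ _ hp0] at hsp
      rw [ip_frame ha1 _ _ hp0'] at hsp'
      have r1 : ip s.1 (I * a.1) ≤ 0 := by
        by_contra hcon
        push Not at hcon
        have := mul_pos hσ hcon
        linarith
      have r2 : 0 ≤ ip s.1 (I * a.1) := by
        by_contra hcon
        push Not at hcon
        have := mul_pos_of_neg_of_neg hσ' hcon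
        linarith
      have r3 : dt a.1 s.1 = 0 := by
        rw [← ip_Idt]; linarith
      have r4 := V10 a h1.mem₁ s hs hsa.symm r3
      have r5 : -ip a.1 x0 = s.2 := by
        have := hx0
        rwa [r4, ip_nl] at this
      have r6 : -ip a.1 v2 ≤ s.2 := by
        have := n2
        rwa [r4, ip_nl] at this
      linarith
    have hXe : X = {a, e, a', e'} := by
      ext s
      simp only [Finset.mem_insert, Finset.mem_singleton]
      refine ⟨key s, ?_⟩
      rintro (h | h | h | h)
      · rw [h]; exact h1.mem₁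
      · rw [h]; exact h1.mem₂
      · rw [h]; exact h2.mem₂
      · rw [h]; exact h3.mem₂
    rw [hXe]
    rw [Finset.card_insert_of_notMem, Finset.card_insert_of_notMem, Finset.card_insert_of_notMem,
      Finset.card_singleton]
    · simpa using ha'e'
    · simp only [Finset.mem_insert, Finset.mem_singleton, not_or]
      exact ⟨hea', hee'⟩
    · simp only [Finset.mem_insert, Finset.mem_singleton, not_or]
      exact ⟨hae, haa', he'a.symm⟩

end Pool.Agent.QUD.H49Y
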