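import Pool.Agent.QUD.StmtsV

/-!
Squad QUD, row CVA: `y cot y + 3 y tan y` is monotone on `(0, π / 2)`.
-/

set_option autoImplicit false

namespace Pool.Agent.QUD.H49

open Real Set

/-- **Row CVA.** -/
theorem cva : CvaStmt := by
  intro x y hx hxy hy
  have hd : ∀ t ∈ Ioo (0 : ℝ) (π / 2), HasDerivAt
      (fun t : ℝ => t * cos t / sin t + 3 * (t * sin t / cos t))
      ((sin t * cos t - t) / sin t ^ 2 + 3 * ((sin t * cos t + t) / cos t ^ 2)) t := by
    intro t ht
    have hs : 0 < sin t := sin_pos_of_pos_of_lt_pi ht.1 (by linarith [ht.2, pi_pos])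
    have hc : 0 < cos t := cos_pos_of_mem_Ioo ⟨by linarith [ht.1, pi_pos], ht.2⟩
    have h1 := ((hasDerivAt_id t).mul (hasDerivAt_cos t)).div (hasDerivAt_sin t) hs.ne'
    have h2 := (((hasDerivAt_id t).mul (hasDerivAt_sin t)).div (hasDerivAt_cos t) hc.ne').const_mul 3
    have h3 := h1.add h2
    have e : ((1 * cos t + id t * (-sin t)) * sin t - id t * cos t * cos t) / sin t ^ 2
        + 3 * (((1 * sin t + id t * cos t) * cos t - id t * sin t * (-sin t)) / cos t ^ 2)
        = (sin t * cos t - t) / sin t ^ 2 + 3 * ((sin t * cos t + t) / cos t ^ 2) := by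
      have e1 : (1 * cos t + id t * (-sin t)) * sin t - id t * cos t * cos t = sin t * cos t - t := by
        simp only [id]
        linear_combination (-t) * sin_sq_add_cos_sq t
      have e2 : (1 * sin t + id t * cos t) * cos t - id t * sin t * (-sin t) = sin t * cos t + t := by
        simp only [id]
        linear_combination t * sin_sq_add_cos_sq t
      rw [e1, e2]
    rw [← e]
    exact h3
  have hmono : MonotoneOn (fun t : ℝ => t * cos t / sin t + 3 * (t * sin t / cos t))
      (Ioo (0 : ℝ) (π / 2)) := by
    refine monotoneOn_of_deriv_nonneg (convex_Ioo _ _)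
      (fun t ht => (hd t ht).continuousAt.continuousWithinAt)
      (fun t ht => ?_) (fun t ht => ?_)
    · rw [interior_Ioo] at ht
      exact (hd t ht).differentiableAt.differentiableWithinAt
    · rw [interior_Ioo] at ht
      rw [(hd t ht).deriv]
      have hs : 0 < sin t := sin_pos_of_pos_of_lt_pi ht.1 (by linarith [ht.2, pi_pos])
      have hc : 0 < cos t := cos_pos_of_mem_Ioo ⟨by linarith [ht.1, pi_pos], ht.2⟩
      have ht0 := ht.1
      have htan : t < tan t := lt_tan ht.1 ht.2
      have htc : t * cos t ≤ sin t := by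
        rw [tan_eq_sin_div_cos, lt_div_iff₀ hc] at htan
        exact htan.le
      have e : (sin t * cos t - t) / sin t ^ 2 + 3 * ((sin t * cos t + t) / cos t ^ 2)
          = ((sin t * cos t - t) * cos t ^ 2 + 3 * ((sin t * cos t + t) * sin t ^ 2))
            / (sin t ^ 2 * cos t ^ 2) := by
        field_simp
      rw [e]
      refine div_nonneg ?_ (by positivity)
      have h1 : t * cos t ^ 2 ≤ sin t * cos t := by nlinarith
      have h2 : (sin t * cos t - t) * cos t ^ 2 + 3 * ((sin t * cos t + t) * sin t ^ 2)
          = (sin t * cos t - t * cos t ^ 2) + 2 * sin t ^ 3 * cos t + 3 * t * sin t ^ 2 := by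
        have h3 : cos t ^ 2 = 1 - sin t ^ 2 := by linarith [sin_sq_add_cos_sq t]
        have h4 : (sin t * cos t - t) * cos t ^ 2
            = sin t * cos t * cos t ^ 2 - t * cos t ^ 2 := by ring
        rw [h4]
        have h5 : sin t * cos t * cos t ^ 2 = sin t * cos t - sin t ^ 3 * cos t := by
          rw [h3]
          ring
        rw [h5]
        ring
      rw [h2]
      have h6 : 0 ≤ 2 * sin t ^ 3 * cos t := by positivity
      have h7 : 0 ≤ 3 * t * sin t ^ 2 := by positivity
      linarith
  exact hmono ⟨hx, by linarith⟩ ⟨by linarith, hy⟩ hxy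

end Pool.Agent.QUD.H49
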