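import Pool.Agent.QUD.StmtsF

/-!
# Squad QUD, row SPB: the small time bound
-/

set_option autoImplicit false

namespace Pool.Agent.QUD.H49

open MeasureTheory Complex Filter Topology ProbabilityTheory Pool.Agent.H16Iso Pool.Agent.H62T
open Pool.Agent.AEU Pool.Agent.QUD

theorem abs_ip_le (e w : ℂ) : |ip e w| ≤ ‖e‖ * ‖w‖ := by
  have h1 : ip e w = ((starRingEnd ℂ) e * w).re := by
    unfold ip
    rw [Complex.mul_re, Complex.conj_re, Complex.conj_im]
    ring
  rw [h1]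
  refine (Complex.abs_re_le_norm _).trans ?_
  rw [norm_mul, Complex.norm_conj]

theorem ip_sub_right (e v w : ℂ) : ip e (v - w) = ip e v - ip e w := by
  unfold ip
  rw [Complex.sub_re, Complex.sub_im]
  ring

theorem G_pos {s : ℝ} (hs : 0 < s) (z : ℂ) : 0 < G s z := by
  unfold G
  positivity

/-- a bound for the loop which holds with probability at least one half -/
theorem exists_R (hM : MomStatement) : ∃ R : ℕ,
    (1 / 2 : ℝ) ≤ (PP {ω | ∀ m k, k ≤ 2 ^ m → ‖loop m ω k‖ ≤ R}).toReal := by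
  obtain ⟨-, -, hae, -⟩ := hM
  let E : ℕ → Set Sp := fun R => {ω | ∀ m k, k ≤ 2 ^ m → ‖loop m ω k‖ ≤ R}
  have hmono : Monotone E := by
    intro R R' h ω hω m k hk
    exact (hω m k hk).trans (by exact_mod_cast h)
  have hlim := tendsto_measure_iUnion_atTop (μ := PP) hmono
  have hU : PP (⋃ n, E n) = 1 := by
    have h1 : (⋃ n, E n) =ᵐ[PP] (Set.univ : Set Sp) := by
      rw [eventuallyEq_univ]
      filter_upwards [hae] with ω hω
      obtain ⟨R, hR⟩ := hω
      obtain ⟨n, hn⟩ := exists_nat_ge R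
      exact Set.mem_iUnion.2 ⟨n, fun m k hk => (hR m k hk).trans hn⟩
    rw [measure_congr h1, measure_univ]
  rw [hU] at hlim
  have h2 : ∀ᶠ n in atTop, (1 / 2 : ENNReal) < PP (E n) :=
    hlim.eventually (lt_mem_nhds (by
      rw [one_div]
      exact ENNReal.inv_lt_one.2 (by norm_num)))
  obtain ⟨R, hR⟩ := h2.exists
  refine ⟨R, ?_⟩
  have h3 : ((1 / 2 : ENNReal)).toReal ≤ (PP (E R)).toReal :=
    ENNReal.toReal_mono (measure_ne_top _ _) hR.le
  have h4 : ((1 / 2 : ENNReal)).toReal = 1 / 2 := by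
    rw [ENNReal.toReal_div]
    norm_num
  rw [h4] at h3
  exact h3

/-- **SPB**. -/
theorem spb (hR : RfbStmt) (hK : KerStatement) (hB : BridgeStatement) (hM : MomStatement)
    (_hL : LoopStatement) : SpbStmt := by
  intro e τ D D' a b he hDo hDc hDb hD'o hD'b ha hb hau hbu
  obtain ⟨-, -, -, hdist, -, -, -, -⟩ := hR e τ he
  have hau' : 0 < ip e a - τ := sub_pos.2 hau
  have hbu' : 0 < ip e b - τ := sub_pos.2 hbu
  -- the radius
  have hcomp : IsCompact (segment ℝ a b) := by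
    rw [← Path.range_segment]
    exact isCompact_range (Path.segment a b).continuous
  have hsub : segment ℝ a b ⊆ D := hDc.segment_subset ha hb
  obtain ⟨d₀, hd₀, hthick⟩ := hcomp.exists_thickening_subset_open hDo hsub
  obtain ⟨ρ, hρ, hρ1, hρ2, hρ3⟩ : ∃ ρ : ℝ, 0 < ρ ∧ 2 * ρ ≤ d₀ ∧ 2 * ρ ≤ ip e a - τ ∧
      2 * ρ ≤ ip e b - τ := by
    refine ⟨min (d₀ / 2) (min ((ip e a - τ) / 2) ((ip e b - τ) / 2)), ?_, ?_, ?_, ?_⟩
    · exact lt_min (by linarith) (lt_min (by linarith) (by linarith))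
    · have := min_le_left (d₀ / 2) (min ((ip e a - τ) / 2) ((ip e b - τ) / 2))
      linarith
    · have h1 := min_le_right (d₀ / 2) (min ((ip e a - τ) / 2) ((ip e b - τ) / 2))
      have h2 := min_le_left ((ip e a - τ) / 2) ((ip e b - τ) / 2)
      linarith
    · have h1 := min_le_right (d₀ / 2) (min ((ip e a - τ) / 2) ((ip e b - τ) / 2))
      have h2 := min_le_right ((ip e a - τ) / 2) ((ip e b - τ) / 2)
      linarith
  have hhalf : ∀ (c x : ℂ), 2 * ρ ≤ ip e c - τ → x ∈ Metric.ball c ρ → ρ ≤ ip e x - τ := by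
    intro c x hc hx
    rw [Metric.mem_ball, dist_eq_norm] at hx
    have h1 := abs_ip_le e (x - c)
    rw [he, one_mul, ip_sub_right] at h1
    have h2 := (abs_le.1 h1).1
    linarith
  -- points near the segment
  have hnear : ∀ x ∈ Metric.ball a ρ, ∀ z ∈ Metric.ball b ρ, ∀ θ : ℝ, 0 ≤ θ → θ ≤ 1 →
      ∀ v : ℂ, ‖v‖ < ρ → ((1 - θ : ℝ) : ℂ) * x + ((θ : ℝ) : ℂ) * z + v ∈ D := by
    intro x hx z hz θ h0 h1 v hv
    rw [Metric.mem_ball, dist_eq_norm] at hx hz
    apply hthick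
    rw [Metric.mem_thickening_iff]
    refine ⟨((1 - θ : ℝ) : ℂ) * a + ((θ : ℝ) : ℂ) * b, ?_, ?_⟩
    · refine ⟨1 - θ, θ, by linarith, h0, by ring, ?_⟩
      rw [Complex.real_smul, Complex.real_smul]
    · rw [dist_eq_norm]
      have e1 : ((1 - θ : ℝ) : ℂ) * x + ((θ : ℝ) : ℂ) * z + v -
          (((1 - θ : ℝ) : ℂ) * a + ((θ : ℝ) : ℂ) * b) =
          ((1 - θ : ℝ) : ℂ) * (x - a) + ((θ : ℝ) : ℂ) * (z - b) + v := by ring
      rw [e1]
      refine lt_of_le_of_lt norm_add₃_le ?_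
      rw [norm_mul, norm_mul, Complex.norm_real, Complex.norm_real, Real.norm_eq_abs,
        Real.norm_eq_abs, abs_of_nonneg (by linarith : 0 ≤ 1 - θ), abs_of_nonneg h0]
      have h2 : (1 - θ) * ‖x - a‖ ≤ (1 - θ) * ρ :=
        mul_le_mul_of_nonneg_left hx.le (by linarith)
      have h3 : θ * ‖z - b‖ ≤ θ * ρ := mul_le_mul_of_nonneg_left hz.le h0
      linarith
  obtain ⟨R, hRp⟩ := exists_R hM
  obtain ⟨s, hs⟩ : ∃ s : ℝ, s = ρ ^ 2 / (4 * ((R : ℝ) + 1) ^ 2) := ⟨_, rfl⟩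
  have hR1 : (1 : ℝ) ≤ (R : ℝ) + 1 := by
    have : (0 : ℝ) ≤ R := Nat.cast_nonneg R
    linarith
  have hs0 : 0 < s := by
    rw [hs]
    positivity
  have hsq : Real.sqrt s = ρ / (2 * ((R : ℝ) + 1)) := by
    have e1 : s = (ρ / (2 * ((R : ℝ) + 1))) ^ 2 := by
      rw [hs, div_pow]
      congr 1
      ring
    rw [e1, Real.sqrt_sq (by positivity)]
  have hsR : Real.sqrt s * R < ρ := by
    rw [hsq, div_mul_eq_mul_div, div_lt_iff₀ (by positivity)]
    have : (0 : ℝ) ≤ R := Nat.cast_nonneg R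
    nlinarith
  have hexp : Real.exp (-(ρ ^ 2 / s)) ≤ 1 / 4 := by
    have e1 : ρ ^ 2 / s = 4 * ((R : ℝ) + 1) ^ 2 := by
      rw [hs]
      field_simp
    rw [e1, Real.exp_neg, ← one_div]
    apply one_div_le_one_div_of_le (by norm_num)
    have h1 := Real.add_one_le_exp (4 * ((R : ℝ) + 1) ^ 2)
    nlinarith
  obtain ⟨δ, hδ⟩ : ∃ δ : ℝ, δ = (1 / 4) *
      (Real.exp (-((‖a - b‖ + 2 * ρ) ^ 2) / (4 * s)) / (4 * Real.pi * s)) := ⟨_, rfl⟩
  have hδ0 : 0 < δ := by
    rw [hδ]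
    positivity
  refine ⟨2 * s, ρ, δ, by linarith, hρ, hδ0, ?_⟩
  intro m x hx z hz
  have ht : 2 * s / 2 = s := by ring
  rw [ht]
  have hxu := hhalf a x hρ2 hx
  have hzu := hhalf b z hρ3 hz
  have hxD : x ∈ D := by
    have h1 := hnear x hx z hz 0 le_rfl zero_le_one 0 (by rw [norm_zero]; exact hρ)
    simpa using h1
  have hzD : z ∈ D := by
    have h1 := hnear x hx z hz 1 zero_le_one le_rfl 0 (by rw [norm_zero]; exact hρ)
    simpa using h1
  -- lower bound for `D`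
  have hlow : G s (x - z) / 2 ≤ Ker D m s x z := by
    rw [hB D hDo hDb m s hs0 x hxD z hzD]
    have h1 : (1 / 2 : ℝ) ≤ (PP {ω | ∀ k : ℕ, 0 < k → k < 2 ^ m →
        ((1 - k / 2 ^ m : ℝ) : ℂ) * x + ((k / 2 ^ m : ℝ) : ℂ) * z
          + (Real.sqrt s : ℂ) * loop m ω k ∈ D}).toReal := by
      refine hRp.trans (ENNReal.toReal_mono (measure_ne_top _ _) (measure_mono ?_))
      intro ω hω k hk0 hk
      have h2 : ‖loop m ω k‖ ≤ R := hω m k hk.le
      have hpow : (0 : ℝ) < 2 ^ m := by positivity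
      refine hnear x hx z hz (k / 2 ^ m) (by positivity) ?_ _ ?_
      · rw [div_le_one hpow]
        exact_mod_cast hk.le
      · rw [norm_mul, Complex.norm_real, Real.norm_eq_abs, abs_of_nonneg (Real.sqrt_nonneg s)]
        exact lt_of_le_of_lt (mul_le_mul_of_nonneg_left h2 (Real.sqrt_nonneg s)) hsR
    have h3 := mul_le_mul_of_nonneg_left h1 (G_pos hs0 (x - z)).le
    linarith
  -- upper bound for `D'`
  have hup : Ker D' m s x (rf e τ z) ≤ G s (x - z) / 4 := by
    refine ((hK D' hD'o hD'b m s hs0).2.1 x (rf e τ z)).2.trans ?_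
    have h1 := hdist x z
    have h2 : ρ ^ 2 ≤ (ip e x - τ) * (ip e z - τ) := by
      have := mul_le_mul hxu hzu hρ.le (by linarith : 0 ≤ ip e x - τ)
      calc ρ ^ 2 = ρ * ρ := by ring
        _ ≤ _ := this
    have h3 : G s (x - rf e τ z) ≤ G s (x - z) * Real.exp (-(ρ ^ 2 / s)) := by
      unfold G
      rw [div_mul_eq_mul_div, ← Real.exp_add]
      apply div_le_div_of_nonneg_right _ (by positivity)
      rw [Real.exp_le_exp, h1]
      have e1 : -‖x - z‖ ^ 2 / (4 * s) + -(ρ ^ 2 / s) = -(‖x - z‖ ^ 2 + 4 * ρ ^ 2) / (4 * s) := by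
        field_simp
        ring
      rw [e1]
      apply div_le_div_of_nonneg_right _ (by positivity)
      linarith
    refine h3.trans ?_
    have h4 := mul_le_mul_of_nonneg_left hexp (G_pos hs0 (x - z)).le
    linarith
  -- the constant
  have hdel : δ ≤ G s (x - z) / 4 := by
    rw [hδ]
    have h1 : Real.exp (-((‖a - b‖ + 2 * ρ) ^ 2) / (4 * s)) / (4 * Real.pi * s) ≤ G s (x - z) := by
      unfold G
      apply div_le_div_of_nonneg_right _ (by positivity)
      rw [Real.exp_le_exp]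
      apply div_le_div_of_nonneg_right _ (by positivity)
      have h2 : ‖x - z‖ ≤ ‖a - b‖ + 2 * ρ := by
        rw [Metric.mem_ball, dist_eq_norm] at hx hz
        have e1 : x - z = (a - b) + (x - a) - (z - b) := by ring
        rw [e1]
        have h3 := norm_sub_le ((a - b) + (x - a)) (z - b)
        have h4 := norm_add_le (a - b) (x - a)
        linarith
      have h5 : ‖x - z‖ ^ 2 ≤ (‖a - b‖ + 2 * ρ) ^ 2 :=
        pow_le_pow_left₀ (norm_nonneg _) h2 2
      linarith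
    linarith
  linarith

end Pool.Agent.QUD.H49
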