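import Pool.Agent.QUD.StmtsV

/-!
Squad QUD, rows TIM and TIS: the mirror image, and the angles and `L` determine everything.
-/

set_option autoImplicit false

namespace Pool.Agent.QUD.H49

open Real Set

/-- **Row TIM.** -/
theorem tim : TimStmt := by
  intro a b c L l1 l2 l3 l4 h
  refine ⟨h.kc, h.kb, by linarith [h.sum], h.p2, h.p1, h.p4, h.p3, h.e2, h.e1, ?_, ?_⟩
  · have hx := h.cx
    have hy := h.cy
    rw [cos_add] at hx
    rw [sin_add] at hy
    rw [cos_add]
    linear_combination (-cos a) * hx - sin a * hy + (-l2 + l3 * cos c) * sin_sq_add_cos_sq a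
  · have hx := h.cx
    have hy := h.cy
    rw [cos_add] at hx
    rw [sin_add] at hy
    rw [sin_add]
    linear_combination (-sin a) * hx + cos a * hy + (-(l3 * sin c)) * sin_sq_add_cos_sq a

theorem sv_pos {t : ℝ} (h0 : 0 < t) (h1 : t < π) : 0 < sv t := by
  unfold sv
  split_ifs
  · exact sin_pos_of_pos_of_lt_pi h0 h1
  · norm_num

/-- **Row TIS.** -/
theorem tis : TisStmt := by
  intro a b c L l1 l2 l3 l4 l1' l2' l3' l4' h h'
  have ha := sv_pos h.kb.1 h.kb.2.1
  have hb := sv_pos h.kb.2.2.1 h.kb.2.2.2.1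
  have hc := sv_pos h.kc.2.2.1 h.kc.2.2.2.1
  have e1 : l1 = l1' := by
    have h1 : l1 * sv a * sv b = l1' * sv a * sv b := by rw [← h.e1, ← h'.e1]
    exact mul_right_cancel₀ ha.ne' (mul_right_cancel₀ hb.ne' h1)
  have e2 : l2 = l2' := by
    have h1 : l2 * sv a * sv c = l2' * sv a * sv c := by rw [← h.e2, ← h'.e2]
    exact mul_right_cancel₀ ha.ne' (mul_right_cancel₀ hc.ne' h1)
  subst e1 e2
  have hsum := h.sum
  have hkb : π < a + b := h.kb.2.2.2.2
  have hc0 : 0 < c := h.kc.2.2.1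
  have hb0 : 0 < b := h.kb.2.2.1
  have hb1 : b < π := h.kb.2.2.2.1
  have hsin : sin (a + c + b) < 0 := by
    have h1 : 0 < sin (a + c + b - π) := sin_pos_of_pos_of_lt_pi (by linarith) (by linarith)
    rw [sin_sub_pi] at h1
    linarith
  have hx := h.cx
  have hy := h.cy
  have hx' := h'.cx
  have hy' := h'.cy
  have h3 : (l3 - l3') * sin (a + c + b) = 0 := by
    rw [sin_add (a + c) b]
    linear_combination sin b * (hx - hx') - cos b * (hx - hx') * 0 + cos b * (hy - hy')
  have e3 : l3 = l3' := by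
    rcases mul_eq_zero.1 h3 with h4 | h4
    · linarith
    · exact absurd h4 hsin.ne
  subst e3
  have hsb : 0 < sin b := sin_pos_of_pos_of_lt_pi hb0 hb1
  have e4 : l4 = l4' := by
    have h4 : l4 * sin b = l4' * sin b := by rw [hy, hy']
    exact mul_right_cancel₀ hsb.ne' h4
  exact ⟨rfl, rfl, rfl, e4⟩

end Pool.Agent.QUD.H49
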