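import Pool.Agent.QUD.StmtsV

/-!
Squad QUD, row TIX: the exceptional cases are impossible.
-/

set_option autoImplicit false

namespace Pool.Agent.QUD.H49

open Real Set

theorem sv_one {t : ℝ} (h : π / 2 ≤ t) : sv t = 1 := by
  unfold sv
  rw [if_neg (not_lt.2 h)]

theorem sv_sin {t : ℝ} (h : t < π / 2) : sv t = sin t := by
  unfold sv
  rw [if_pos h]

/-- `sin` decreases on `[π / 2, π]`. -/
theorem sin_lt_obt {s t : ℝ} (hs : π / 2 ≤ s) (hst : s < t) (ht : t ≤ π) : sin t < sin s := by
  have h1 : sin (π - t) < sin (π - s) :=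
    sin_lt_sin_of_lt_of_le_pi_div_two (by linarith [pi_pos]) (by linarith) (by linarith)
  rwa [sin_pi_sub, sin_pi_sub] at h1

theorem sin_le_obt {s t : ℝ} (hs : π / 2 ≤ s) (hst : s ≤ t) (ht : t ≤ π) : sin t ≤ sin s := by
  rcases hst.lt_or_eq with h | h
  · exact (sin_lt_obt hs h ht).le
  · rw [h]

/-- **Row TIX.** -/
theorem tix (hCvx : CvxStmt) : TixStmt := by
  intro a b c a' b' c' L l1 l2 l3 l4 l1' l2' l3' l4' h h' har hper hexc
  have hp1 := h.p1
  have hp2 := h.p2
  have hp3 := h.p3
  have hp4 := h.p4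
  have hp1' := h'.p1
  have hp2' := h'.p2
  have hp3' := h'.p3
  have hp4' := h'.p4
  have hb0 := h.kb.2.2.1
  have hb1 := h.kb.2.2.2.1
  have hc0 := h.kc.2.2.1
  have hc1 := h.kc.2.2.2.1
  have ha0 := h.kb.1
  have ha1 := h.kb.2.1
  have hab : π < a + b := h.kb.2.2.2.2
  have hac : π < a + c := h.kc.2.2.2.2
  have hb0' := h'.kb.2.2.1
  have hb1' := h'.kb.2.2.2.1
  have hc0' := h'.kc.2.2.1
  have hc1' := h'.kc.2.2.2.1
  have ha0' := h'.kb.1
  have ha1' := h'.kb.2.1
  have hab' : π < a' + b' := h'.kb.2.2.2.2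
  have hac' : π < a' + c' := h'.kc.2.2.2.2
  have e1 := h.e1
  have e2 := h.e2
  have e1' := h'.e1
  have e2' := h'.e2
  unfold ar4 at har
  rcases hexc with ⟨q1, q2, q3, q4, q5, q6⟩ | ⟨q1, q2, q3, q4, q5⟩ | ⟨q1, q2, q3, q4, q5, q6⟩ |
    ⟨q1, q2, q3, q4, q5, q6, q7⟩
  · -- (1)
    subst q2
    rw [sv_one q1.le, sv_one (by linarith)] at e1
    rw [sv_one q1.le, sv_one (by linarith)] at e2
    rw [sv_one (by linarith), sv_one q1.le] at e1'
    rw [q3, sv_one (by linarith), sv_one q1.le] at e2'
    have hl1 : l1 = L / 2 := by linarith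
    have hl2 : l2 = L / 2 := by linarith
    have hl1' : l1' = L / 2 := by linarith
    have hl2' : l2' = L / 2 := by linarith
    rw [hl1, hl2, hl1', hl2', q3] at har
    have hs1 := sin_lt_obt q1.le q4 hb1.le
    have hs2 := sin_lt_obt q1.le q5 hc1.le
    have hL : 0 < L / 2 := by rw [← hl1]; exact hp1
    have h3 : l3 + l4 = l3' + l4' := by linarith
    have h4 : l4 * sin b + l3 * sin c < (l3 + l4) * sin b' := by
      have g1 := mul_lt_mul_of_pos_left hs1 hp4
      have g2 := mul_lt_mul_of_pos_left hs2 hp3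
      linarith
    have h5 : L / 2 * (l4 * sin b + l3 * sin c) = L / 2 * ((l3' + l4') * sin b') := by linarith
    have h6 := mul_left_cancel₀ hL.ne' h5
    rw [← h3] at h6
    linarith
  · -- (2)
    subst q2
    rw [sv_one (by linarith), sv_one q1.le] at e1
    rw [sv_one (by linarith), sv_one q1.le] at e2
    have hb'b : b ≤ b' := by
      rcases q5 with ⟨h1, _⟩ | ⟨_, h1⟩
      · exact h1.ge
      · exact h1.le
    have hc'b : b ≤ c' := by
      rcases q5 with ⟨_, h1⟩ | ⟨h1, _⟩
      · exact h1.le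
      · exact h1.ge
    rw [sv_one (by linarith), sv_one (by linarith)] at e1'
    rw [sv_one (by linarith), sv_one (by linarith)] at e2'
    have hl1 : l1 = L / 2 := by linarith
    have hl2 : l2 = L / 2 := by linarith
    have hl1' : l1' = L / 2 := by linarith
    have hl2' : l2' = L / 2 := by linarith
    rw [hl1, hl2, hl1', hl2'] at har
    have hL : 0 < L / 2 := by rw [← hl1]; exact hp1
    have h3 : l3 + l4 = l3' + l4' := by linarith
    have hs1 := sin_le_obt q1.le hb'b hb1'.le
    have hs2 := sin_le_obt q1.le hc'b hc1'.le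
    have h4 : l4' * sin b' + l3' * sin c' < (l3' + l4') * sin b := by
      rcases q5 with ⟨_, h1⟩ | ⟨_, h1⟩
      · have hs3 := sin_lt_obt q1.le h1 hc1'.le
        have g1 := mul_le_mul_of_nonneg_left hs1 hp4'.le
        have g2 := mul_lt_mul_of_pos_left hs3 hp3'
        linarith
      · have hs3 := sin_lt_obt q1.le h1 hb1'.le
        have g1 := mul_lt_mul_of_pos_left hs3 hp4'
        have g2 := mul_le_mul_of_nonneg_left hs2 hp3'.le
        linarith
    have h5 : L / 2 * (l4' * sin b' + l3' * sin c') = L / 2 * ((l3 + l4) * sin b) := by linarith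
    have h6 := mul_left_cancel₀ hL.ne' h5
    rw [h3] at h6
    linarith
  · -- (3)
    rw [q2, sv_one q1.le, sv_one le_rfl] at e1
    rw [q3, sv_one q1.le, sv_one le_rfl] at e2
    rw [q4, q5, sv_one le_rfl, sv_one q1.le] at e1'
    rw [q4, q6, sv_one le_rfl, sv_one q1.le] at e2'
    have hl1 : l1 = L / 2 := by linarith
    have hl2 : l2 = L / 2 := by linarith
    have hl1' : l1' = L / 2 := by linarith
    have hl2' : l2' = L / 2 := by linarith
    rw [hl1, hl2, hl1', hl2', q2, q3, q5, q6, sin_pi_div_two] at har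
    have hL : 0 < L / 2 := by rw [← hl1]; exact hp1
    have h3 : l3 + l4 = l3' + l4' := by linarith
    have hs := sin_lt_obt le_rfl q1 ha1.le
    rw [sin_pi_div_two] at hs
    have h5 : L / 2 * (l4 + l3) = L / 2 * ((l3' + l4') * sin a) := by linarith
    have h6 := mul_left_cancel₀ hL.ne' h5
    have h7 := mul_lt_mul_of_pos_left hs (show 0 < l3' + l4' by linarith)
    linarith
  · -- (4)
    subst q5
    rw [sv_one q1.le, sv_sin q2] at e1
    rw [sv_one q1.le, sv_sin q3] at e2
    rw [sv_sin q4, sv_one q1.le] at e1'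
    rw [q6, sv_sin q4, sv_one q1.le] at e2'
    rw [q6] at har
    have hsb : 0 < sin b := sin_pos_of_pos_of_lt_pi hb0 hb1
    have hsc : 0 < sin c := sin_pos_of_pos_of_lt_pi hc0 hc1
    have hsa' : 0 < sin a' := sin_pos_of_pos_of_lt_pi ha0' ha1'
    have hsb' : 0 < sin b' := sin_pos_of_pos_of_lt_pi ha0 ha1
    have hL : 0 < L / 2 := by
      rw [e1]
      positivity
    have hs : sin b' < sin a' := by
      have h1 : sin (π - b') < sin a' :=
        sin_lt_sin_of_lt_of_le_pi_div_two (by linarith [pi_pos]) q4.le (by linarith)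
      rwa [sin_pi_sub] at h1
    have hl1 : l1 * sin b = L / 2 := by linarith
    have hl2 : l2 * sin c = L / 2 := by linarith
    have hl1' : l1' * sin a' = L / 2 := by linarith
    have hl2' : l2' * sin a' = L / 2 := by linarith
    have h1 : L / 2 * (l4 + l3) = l1' * sin b' * (l4' + l3') := by
      have h2 : l1 * l4 * sin b + l2 * l3 * sin c = L / 2 * (l4 + l3) := by
        rw [← hl1]
        have : l2 * l3 * sin c = l3 * (l1 * sin b) := by rw [hl1, ← hl2]; ring
        rw [this]
        ring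
      have h3 : l2' = l1' := mul_right_cancel₀ hsa'.ne' (hl2'.trans hl1'.symm)
      rw [h3] at har
      linarith
    have h2 : L / 2 * (l4 + l3) < L / 2 * (l4' + l3') := by
      rw [h1, ← hl1']
      have h4 : l1' * sin b' < l1' * sin a' := mul_lt_mul_of_pos_left hs hp1'
      exact mul_lt_mul_of_pos_right h4 (by linarith)
    have h3 : l4 + l3 < l4' + l3' := lt_of_mul_lt_mul_left h2 hL.le
    have h4 : l1' + l2' < l1 + l2 := by linarith
    have hcv := (hCvx b' b c q1 ha1 (by linarith) q2.le (by linarith) q3.le).2 a' (by linarith)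
      q4.le q7
    have g1 : l1 = L / 2 * (1 / sin b) := by
      rw [← hl1]
      field_simp
    have g2 : l2 = L / 2 * (1 / sin c) := by
      rw [← hl2]
      field_simp
    have g1' : l1' = L / 2 * (1 / sin a') := by
      rw [← hl1']
      field_simp
    have g2' : l2' = L / 2 * (1 / sin a') := by
      rw [← hl2']
      field_simp
    have h5 : L / 2 * (1 / sin b + 1 / sin c) ≤ L / 2 * (2 / sin a') :=
      mul_le_mul_of_nonneg_left hcv hL.le
    have h6 : L / 2 * (2 / sin a') = l1' + l2' := by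
      rw [g1', g2']
      ring
    rw [h6, mul_add, ← g1, ← g2] at h5
    linarith

end Pool.Agent.QUD.H49
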