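import Pool.Agent.QUD.StmtsXU

/-!
# Squad QUD, row XM1: no or one item of the types B, H
-/

set_option autoImplicit false

namespace Pool.Agent.QUD.H49X

open MeasureTheory Filter Topology Real Set Pool.Agent.AEU Pool.Agent.AEU.H12 Pool.Agent.XQ
  Pool.Agent.XQ.U Pool.Agent.QUD

/-- the sum of a function which vanishes at the obtuse items -/
theorem sum_zero (f : ℝ × ℝ → ℝ) (hf : ∀ p, obt p → f p = 0) :
    ∀ l : List (ℝ × ℝ), (∀ p ∈ l, obt p) → (l.map f).sum = 0
  | [], _ => by simp
  | x :: l, h => by
    rw [List.map_cons, List.sum_cons, hf x (h x (by simp)),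
      sum_zero f hf l (fun p hp => h p (List.mem_cons_of_mem _ hp)), add_zero]

theorem all_obt (l : List (ℝ × ℝ)) (h : l.length ≤ (oA l).length) : ∀ p ∈ l, obt p := by
  classical
  intro p hp
  have h1 : (l.filter fun p => decide (obt p)) = l := by
    refine List.filter_eq_self.mpr ?_
    have h2 : (l.filter fun p => decide (obt p)).length = l.length :=
      le_antisymm (List.length_filter_le _ _) h
    have h3 := List.length_filter_eq_length_iff.mp h2
    exact h3
  have h4 : p ∈ (l.filter fun p => decide (obt p)) := by rw [h1]; exact hp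
  have h5 := (List.mem_filter.mp h4).2
  exact of_decide_eq_true h5

theorem sum_one (f : ℝ × ℝ → ℝ) (hf : ∀ p, obt p → f p = 0) (p : ℝ × ℝ) (hp : ¬ obt p) :
    ∀ l : List (ℝ × ℝ), l.length ≤ (oA l).length + 1 → p ∈ l → (l.map f).sum = f p
  | [], _, h => by simp at h
  | x :: l, hl, h => by
    classical
    rw [List.map_cons, List.sum_cons]
    by_cases hx : obt x
    · have hpx : p ≠ x := fun he => hp (he ▸ hx)
      have hpl : p ∈ l := by
        rcases List.mem_cons.mp h with h1 | h1
        · exact absurd h1 hpx
        · exact h1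
      have h2 : (oA (x :: l)).length = (oA l).length + 1 := by
        unfold oA
        rw [List.filter_cons_of_pos (by exact decide_eq_true hx), List.length_cons]
      rw [h2, List.length_cons] at hl
      rw [hf x hx, zero_add]
      exact sum_one f hf p hp l (by omega) hpl
    · have h2 : (oA (x :: l)).length = (oA l).length := by
        unfold oA
        rw [List.filter_cons_of_neg (by simpa using hx)]
      rw [h2, List.length_cons] at hl
      have h3 := all_obt l (by omega)
      have h4 : p = x := by
        rcases List.mem_cons.mp h with h1 | h1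
        · exact h1
        · exact absurd (h3 p h1) hp
      rw [sum_zero f hf l h3, add_zero, h4]

open Classical in
theorem sumB (α : ℝ) : ∀ B : List (ℝ × ℝ),
    (B.map fun q => if q.1 = α then (1 : ℝ) else 0).sum = ((B.countP fun q => decide (q.1 = α) : ℕ) : ℝ)
  | [] => by simp
  | x :: B => by
    rw [List.map_cons, List.sum_cons, sumB α B]
    by_cases h : x.1 = α
    · rw [if_pos h, List.countP_cons_of_pos (by exact decide_eq_true h)]
      push_cast; ring
    · rw [if_neg h, List.countP_cons_of_neg (by simpa using h), zero_add]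

open Classical in
theorem sumH (α : ℝ) : ∀ H : List ℝ,
    (H.map fun β => if β = α then (1 / 2 : ℝ) else 0).sum = ((H.countP fun β => decide (β = α) : ℕ) : ℝ) / 2
  | [] => by simp
  | x :: H => by
    rw [List.map_cons, List.sum_cons, sumH α H]
    by_cases h : x = α
    · rw [if_pos h, List.countP_cons_of_pos (by exact decide_eq_true h)]
      push_cast; ring
    · rw [if_neg h, List.countP_cons_of_neg (by simpa using h), zero_add]

theorem wQ_zero (B : List (ℝ × ℝ)) (H : List ℝ) (α : ℝ) (h : wQ B H α = 0) :
    (∀ q ∈ B, q.1 ≠ α) ∧ ∀ β ∈ H, β ≠ α := by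
  classical
  unfold wQ at h
  rw [sumB, sumH] at h
  have h1 : (0 : ℝ) ≤ ((B.countP fun q => decide (q.1 = α) : ℕ) : ℝ) := Nat.cast_nonneg _
  have h2 : (0 : ℝ) ≤ ((H.countP fun β => decide (β = α) : ℕ) : ℝ) := Nat.cast_nonneg _
  have h3 : ((B.countP fun q => decide (q.1 = α) : ℕ) : ℝ) = 0 := by linarith
  have h4 : ((H.countP fun β => decide (β = α) : ℕ) : ℝ) = 0 := by linarith
  have h5 := List.countP_eq_zero.mp (Nat.cast_eq_zero.mp h3)
  have h6 := List.countP_eq_zero.mp (Nat.cast_eq_zero.mp h4)
  refine ⟨fun q hq he => h5 q hq (decide_eq_true he), fun β hβ he => h6 β hβ (decide_eq_true he)⟩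

theorem wQ_all (B : List (ℝ × ℝ)) (H : List ℝ) (α : ℝ) (hB : ∀ q ∈ B, q.1 = α)
    (hH : ∀ β ∈ H, β = α) : wQ B H α = (B.length : ℝ) + (H.length : ℝ) / 2 := by
  classical
  unfold wQ
  rw [sumB, sumH]
  have h1 : (B.countP fun q => decide (q.1 = α)) = B.length :=
    List.countP_eq_length.mpr fun q hq => decide_eq_true (hB q hq)
  have h2 : (H.countP fun β => decide (β = α)) = H.length :=
    List.countP_eq_length.mpr fun β hβ => decide_eq_true (hH β hβ)
  rw [h1, h2]

theorem xm1 (hXce : XceStmt) : Xm1Stmt := by
  classical
  intro l A B H hK hOk hW hC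
  refine ⟨?_, ?_⟩
  · intro hob
    have h0 : ∀ α, wQ B H α = 0 := by
      intro α
      rw [← hW α]
      refine sum_zero (wt α) ?_ l hob
      intro p hp
      unfold wt om
      rw [if_pos hp]
      simp
    refine ⟨?_, ?_⟩
    · refine List.eq_nil_iff_forall_not_mem.mpr ?_
      intro q hq
      exact (wQ_zero B H q.1 (h0 q.1)).1 q hq rfl
    · refine List.eq_nil_iff_forall_not_mem.mpr ?_
      intro β hβ
      exact (wQ_zero B H β (h0 β)).2 β hβ rfl
  · intro hlen p hp hno A'
    obtain ⟨hp1, hp2, hp3, hp4, hp5⟩ := hK p hp
    have hwp : ∀ α, wQ B H α = wt α p := by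
      intro α
      rw [← hW α]
      refine sum_one (wt α) ?_ p hno l hlen hp
      intro q hq
      unfold wt om
      rw [if_pos hq]
      simp
    have hcp : cQ B H = ct p := by
      rw [← hC]
      refine sum_one ct ?_ p hno l hlen hp
      intro q hq
      unfold ct om
      rw [if_pos hq, zero_mul]
    set M := max p.1 p.2 with hM
    set m := min p.1 p.2 with hm
    have hsum : M + m = p.1 + p.2 := max_add_min p.1 p.2
    have hm2 : m ≤ π / 2 := by
      by_contra hcon
      push Not at hcon
      exact hno ⟨lt_of_lt_of_le hcon (min_le_left _ _), lt_of_lt_of_le hcon (min_le_right _ _)⟩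
    have hm0 : 0 < m := lt_min hp1 hp3
    have hMpi : M < π := max_lt hp2 hp4
    have hM2 : π / 2 < M := by linarith
    have hBM : ∀ q ∈ B, q.1 = M := by
      intro q hq
      by_contra hne
      have h1 : wQ B H q.1 = 0 := by
        rw [hwp]
        unfold wt
        rw [if_neg]
        intro h2
        exact hne h2.symm
      exact (wQ_zero B H q.1 h1).1 q hq rfl
    have hHM : ∀ β ∈ H, β = M := by
      intro β hβ
      by_contra hne
      have h1 : wQ B H β = 0 := by
        rw [hwp]
        unfold wt
        rw [if_neg]
        intro h2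
        exact hne h2.symm
      exact (wQ_zero B H β h1).2 β hβ rfl
    have hw : (B.length : ℝ) + (H.length : ℝ) / 2 = om p := by
      rw [← wQ_all B H M hBM hHM, hwp]
      unfold wt
      rw [if_pos rfl]
    refine ⟨fun h => absurd h hno, ?_, ?_⟩
    · intro _ hlt
      have hom : om p = 1 := by
        unfold om
        rw [if_neg hno, if_neg (ne_of_lt hlt)]
      rw [hom] at hw
      have hw2 : 2 * B.length + H.length = 2 := by
        have : ((2 * B.length + H.length : ℕ) : ℝ) = ((2 : ℕ) : ℝ) := by push_cast; linarith
        exact_mod_cast this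
      have hctp : ct p = Ceta (π / M) (π / 2 - m) := by
        unfold ct
        rw [hom, one_mul]
        rfl
      have hpiM : π / (π / M) = M := by
        field_simp
      have hb1 : 1 < π / M := by
        rw [lt_div_iff₀ (by linarith [Real.pi_pos])]
        linarith
      have hb2 : π / M < 2 := by
        rw [div_lt_iff₀ (by linarith [Real.pi_pos])]
        linarith
      rcases Nat.eq_zero_or_pos B.length with hB0 | hBpos
      · -- H = [M, M]
        have hBnil : B = [] := List.length_eq_zero_iff.mp hB0
        have hH2 : H.length = 2 := by omega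
        obtain ⟨x, y, hxy⟩ := List.length_eq_two.mp hH2
        have hx : x = M := hHM x (by rw [hxy]; simp)
        have hy : y = M := hHM y (by rw [hxy]; simp)
        have hc2 : cQ B H = Ceta (π / M) 0 := by
          unfold cQ
          rw [hBnil, hxy, hx, hy]
          simp only [List.map_nil, List.sum_nil, List.map_cons, List.sum_cons]
          ring
        have h7 := hXce (π / M) 0 (π / 2 - m) hb1 hb2 le_rfl (by rw [hpiM]; linarith) (by linarith)
          (by rw [hpiM]; linarith) (by rw [← hc2, hcp, hctp])
        exact absurd h7.2 (lt_irrefl _)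
      · have hB1 : B.length = 1 := by omega
        have hH0 : H.length = 0 := by omega
        have hHnil : H = [] := List.length_eq_zero_iff.mp hH0
        obtain ⟨q, hq⟩ := List.length_eq_one_iff.mp hB1
        have hqB : q ∈ B := by rw [hq]; simp
        have hqM : q.1 = M := hBM q hqB
        have hc2 : cQ B H = Ceta (π / q.1) q.2 := by
          unfold cQ
          rw [hHnil, hq]
          simp
        have hok := (hOk.2.1 q hqB)
        have hq2 : 0 < q.2 ∧ q.2 < q.1 := by
          rcases hok.1 with h8 | h8
          · exact ⟨h8.2.2.1, h8.2.2.2.1⟩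
          · linarith [h8.1, hok.2]
        have h7 := hXce (π / M) (π / 2 - m) q.2 hb1 hb2 (by linarith) (by rw [hpiM]; linarith)
          hq2.1 (by rw [hpiM, ← hqM]; exact hq2.2) (by rw [← hctp, ← hcp, hc2, hqM])
        refine ⟨q, hqB, hqM, ?_⟩
        rcases h7.1 with h8 | h8
        · exact Or.inl h8
        · right
          rw [h8, hpiM, hqM]
    · intro _ heq
      have hom : om p = 1 / 2 := by
        unfold om
        rw [if_neg hno, if_pos heq]
      rw [hom] at hw
      have hw2 : 2 * B.length + H.length = 1 := by
        have : ((2 * B.length + H.length : ℕ) : ℝ) = ((1 : ℕ) : ℝ) := by push_cast; linarith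
        exact_mod_cast this
      have hH1 : H.length = 1 := by omega
      obtain ⟨x, hx⟩ := List.length_eq_one_iff.mp hH1
      have hxM : x = M := hHM x (by rw [hx]; simp)
      rw [hx, ← hM, ← hxM]
      exact List.mem_singleton_self x

end Pool.Agent.QUD.H49X
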